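import Mathlib
import Pool.Agent.H1.Mono.Targets

set_option autoImplicit false

open Finset Pool.Agent.H73.Xor Pool.Agent.H1.Mono

namespace Pool.Agent.H75.Mono

theorem card_fix {V Q : Type} [Fintype V] [DecidableEq V] [Fintype Q] [DecidableEq Q]
    (X : Finset (V → Q)) (I : Finset V) (α : V → Q) (h : ∀ x ∈ X, ∀ i ∈ I, x i = α i) :
    X.card ≤ Fintype.card Q ^ (Fintype.card V - I.card) := by
  have h1 : X.card ≤ (Finset.univ : Finset ({i // i ∉ I} → Q)).card := by
    refine Finset.card_le_card_of_injOn (fun x => fun i => x i.1) (fun x _ => Finset.mem_univ _) ?_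
    intro x hx y hy hxy
    funext i
    by_cases hi : i ∈ I
    · rw [h x hx i hi, h y hy i hi]
    · exact congrFun hxy ⟨i, hi⟩
  rw [Finset.card_univ, Fintype.card_fun] at h1
  have h2 : Fintype.card {i // i ∉ I} = Fintype.card V - I.card := by
    rw [Fintype.card_subtype_compl, Fintype.card_coe]
  rwa [h2] at h1

theorem part : PART_target := by
  intro V Q _ _ _ _ lam T d hlam hT hd X
  induction X using Finset.strongInduction with
  | H X ih =>
    rcases X.eq_empty_or_nonempty with rfl | hX
    · exact ⟨∅, subset_rfl, by simpa using hT, by simp⟩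
    obtain ⟨x0, hx0⟩ := hX
    classical
    let P : Finset V → Prop := fun I => ∃ α : V → Q,
      lam ^ I.card * X.card ≤ ((X.filter fun x => ∀ i ∈ I, x i = α i).card : ℝ)
    have hP0 : P ∅ := ⟨x0, by simp⟩
    obtain ⟨I, hI, hmax⟩ := Finset.exists_max_image (Finset.univ.filter P) Finset.card
      ⟨∅, by simpa using hP0⟩
    rw [Finset.mem_filter] at hI
    obtain ⟨-, α, hα⟩ := hI
    set X' := X.filter fun x => ∀ i ∈ I, x i = α i with hX'
    have hXpos : (0 : ℝ) < X.card := by exact_mod_cast Finset.card_pos.2 ⟨x0, hx0⟩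
    have hX'pos : (0 : ℝ) < X'.card := lt_of_lt_of_le (mul_pos (pow_pos hlam _) hXpos) hα
    have hX'ne : X'.Nonempty := Finset.card_pos.1 (by exact_mod_cast hX'pos)
    have hdense : Dense lam I X' := by
      intro K hK β
      by_contra hcon
      push Not at hcon
      have hKne : K.Nonempty := by
        rw [Finset.nonempty_iff_ne_empty]
        rintro rfl
        simp at hcon
      have hPJ : P (I ∪ K) := by
        refine ⟨fun i => if i ∈ K then β i else α i, ?_⟩
        have hsub : (X'.filter fun x => ∀ i ∈ K, x i = β i) ⊆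
            X.filter fun x => ∀ i ∈ I ∪ K, x i = if i ∈ K then β i else α i := by
          intro x hx
          rw [Finset.mem_filter, hX', Finset.mem_filter] at hx
          obtain ⟨⟨h1, h2⟩, h3⟩ := hx
          rw [Finset.mem_filter]
          refine ⟨h1, fun i hi => ?_⟩
          split_ifs with hiK
          · exact h3 i hiK
          · rcases Finset.mem_union.1 hi with h | h
            · exact h2 i h
            · exact absurd h hiK
        have hc : ((X'.filter fun x => ∀ i ∈ K, x i = β i).card : ℝ) ≤
            ((X.filter fun x => ∀ i ∈ I ∪ K, x i = if i ∈ K then β i else α i).card : ℝ) := by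
          exact_mod_cast Finset.card_le_card hsub
        refine le_trans ?_ hc
        rw [Finset.card_union_of_disjoint hK.symm, pow_add]
        have h4 : lam ^ K.card * (lam ^ I.card * X.card) ≤ lam ^ K.card * X'.card :=
          mul_le_mul_of_nonneg_left hα (pow_nonneg hlam.le _)
        nlinarith
      have := hmax (I ∪ K) (by simpa using hPJ)
      rw [Finset.card_union_of_disjoint hK.symm] at this
      have h5 := Finset.card_pos.2 hKne
      omega
    by_cases hId : I.card ≤ d
    · have hss : X \ X' ⊂ X := by
        refine Finset.sdiff_ssubset (Finset.filter_subset _ _) hX'ne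
      obtain ⟨E, hE, hET, hEx⟩ := ih _ hss
      refine ⟨E, hE.trans Finset.sdiff_subset, hET, fun x hx hxE => ?_⟩
      by_cases hxX' : x ∈ X'
      · refine ⟨X', Finset.filter_subset _ _, I, hxX', hId, ?_, hdense⟩
        intro x' hx' i hi
        rw [(Finset.mem_filter.1 hx').2 i hi, (Finset.mem_filter.1 hxX').2 i hi]
      · obtain ⟨Y, hY, J, h1, h2, h3, h4⟩ := hEx x (Finset.mem_sdiff.2 ⟨hx, hxX'⟩) hxE
        exact ⟨Y, hY.trans Finset.sdiff_subset, J, h1, h2, h3, h4⟩
    · push Not at hId
      refine ⟨X, subset_rfl, ?_, fun x hx hxE => absurd hx hxE⟩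
      have h6 := hd I.card hId (Finset.card_le_univ I)
      have h7 : (X'.card : ℝ) ≤ (Fintype.card Q : ℝ) ^ (Fintype.card V - I.card) := by
        exact_mod_cast card_fix X' I α fun x hx => (Finset.mem_filter.1 hx).2
      have h8 : lam ^ I.card * X.card ≤ lam ^ I.card * T := by
        calc lam ^ I.card * X.card ≤ X'.card := hα
          _ ≤ _ := h7
          _ ≤ _ := h6
          _ = _ := mul_comm _ _
      exact le_of_mul_le_mul_left h8 (pow_pos hlam _)

end Pool.Agent.H75.Mono
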